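import Pool.Agent.R688.GU.Fin1

/-!
# The Cohen-Macaulay type of Cohen-Macaulay Golod quotients (MP_5d828d_al, Q1)

For every field `k` there is a homogeneous ideal `I ⊆ (x, y, z)³` of `S = k[x, y, z]` with
`S / I` Cohen-Macaulay (of dimension zero), Golod, of type two, while `I` has height three.
-/

set_option autoImplicit false

open MvPolynomial Pool.Agent.R688.GU

namespace Pool.Agent.Results.MP_5d828d_al.CohenMacaulayGolodTypeTwo

/-- For every field `k` there is a homogeneous ideal `I ⊆ (x, y, z)²` of `S = k[x, y, z]` such that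
`S / I` is Cohen-Macaulay (of Krull dimension zero) and Golod, of type at most two, while `I` has
height at least three.  So the inequality `type ≥ height` fails for Cohen-Macaulay Golod rings. -/
theorem result (k : Type) [Field k] : ∃ I : Ideal (MvPolynomial (Fin 3) k),
    IsHomog I ∧ I ≤ (maxS k 3) ^ 2 ∧ IsCMR I ∧ ringKrullDim (MvPolynomial (Fin 3) k ⧸ I) = 0 ∧
      IsGolod (xbar I) ∧ typeR I ≤ 2 ∧ 3 ≤ I.height ∧ typeR I < I.height := by
  refine ⟨One.I₁ k, One.homog, One.I₁_le, One.isCM, One.dim_zero, One.golod, One.type_le,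
    One.height_ge, ?_⟩
  refine lt_of_le_of_lt One.type_le (lt_of_lt_of_le ?_ One.height_ge)
  norm_num

end Pool.Agent.Results.MP_5d828d_al.CohenMacaulayGolodTypeTwo
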